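import Pool.Agent.Zk50.Po.Near

/-!
# The points which are not good
-/

set_option autoImplicit false

open Set Filter Topology Metric Polynomial

namespace Pool.Agent.Zk50.Po

open Pool.Agent.H713R5.QJ (ev Good opg_hasDeriv)

/-- The set of the points which are not good is compact. -/
theorem cpt : Pool.Agent.Zk29.Po.S_CPT := by
  intro T hT
  rw [isCompact_iff_isClosed_bounded]
  constructor
  · rw [← isOpen_compl_iff, isOpen_iff_mem_nhds]
    intro z hz
    have hz' : Good (ev T) z := by
      by_contra h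
      exact hz h
    have h1 := good_ev (d := T.natDegree) hT rfl hz'
    have h2 : Tendsto (fun w : ℂ => ((0 : Fin (T.natDegree + 1) → ℂ), w)) (𝓝 z) (𝓝 (0, z)) :=
      (Continuous.prodMk_right _).tendsto z
    filter_upwards [h2.eventually h1] with w hw
    rw [pl_zero, add_zero] at hw
    exact fun h => h hw
  · obtain ⟨R, hR⟩ := far_good (d := T.natDegree) hT rfl
    have h1 := hR.self_of_nhds
    rw [pl_zero, add_zero] at h1
    refine (Metric.isBounded_ball (x := (0 : ℂ)) (r := R)).subset fun z hz => ?_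
    rw [mem_ball, dist_zero_right]
    by_contra h
    exact hz (h1 z (not_lt.1 h))

/-- A disc which is mapped into a much smaller disc consists of good points. -/
theorem disc : Pool.Agent.Zk29.Po.S_DISC := by
  intro T v m ρ hm hρ hx hv
  obtain ⟨g, hg⟩ : ∃ g, g = (ev T)^[m] := ⟨_, rfl⟩
  have hdiff : ∀ x, DifferentiableAt ℂ g x := fun x => by
    rw [hg]
    exact (opg_hasDeriv T m x).differentiableAt
  have hx2 : ∀ x, ‖x - v‖ ≤ 2 * ρ → ‖g x - g v‖ ≤ ρ / 4 := fun x hx' => by
    rw [hg]
    exact hx x hx'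
  have hgv : ‖g v - v‖ ≤ ρ := by rw [hg]; exact hv
  have hder : ∀ x, ‖x - v‖ ≤ 3 / 2 * ρ → ‖deriv g x‖ ≤ 1 / 2 := by
    intro x hx'
    have h1 : ∀ y ∈ closedBall x (ρ / 2), ‖y - v‖ ≤ 2 * ρ := by
      intro y hy
      rw [mem_closedBall, dist_eq_norm] at hy
      have := norm_add_le (y - x) (x - v)
      rw [sub_add_sub_cancel] at this
      linarith
    have h2 : ‖deriv (fun y => g y - g v) x‖ ≤ (ρ / 4) / (ρ / 2) := by
      apply Complex.norm_deriv_le_of_forall_mem_sphere_norm_le (by positivity)
      · apply DifferentiableOn.diffContOnCl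
        intro y _
        exact ((hdiff y).sub_const _).differentiableWithinAt
      · intro y hy
        exact hx2 y (h1 y (sphere_subset_closedBall hy))
    rw [deriv_sub_const] at h2
    refine h2.trans (le_of_eq ?_)
    field_simp
    norm_num
  have hlip : ∀ x y, ‖x - v‖ ≤ 3 / 2 * ρ → ‖y - v‖ ≤ 3 / 2 * ρ →
      ‖g y - g x‖ ≤ 1 / 2 * ‖y - x‖ := by
    intro x y hx' hy'
    refine (convex_closedBall v (3 / 2 * ρ)).norm_image_sub_le_of_norm_deriv_le (f := g)
      (fun u _ => hdiff u) (fun u hu => ?_) ?_ ?_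
    · rw [mem_closedBall, dist_eq_norm] at hu
      exact hder u hu
    · rwa [mem_closedBall, dist_eq_norm]
    · rwa [mem_closedBall, dist_eq_norm]
  have hself : ∀ x, ‖x - v‖ ≤ 3 / 2 * ρ → ‖g x - v‖ ≤ 3 / 2 * ρ := by
    intro x hx'
    have h1 := hx2 x (by linarith)
    have h2 := norm_add_le (g x - g v) (g v - v)
    rw [sub_add_sub_cancel] at h2
    linarith
  have hs1 : ∀ k, ‖g^[k] v - v‖ ≤ 3 / 2 * ρ := by
    intro k
    induction k with
    | zero =>
      rw [Function.iterate_zero_apply, sub_self, norm_zero]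
      positivity
    | succ k ih =>
      rw [Function.iterate_succ_apply']
      exact hself _ ih
  have hs2 : ∀ k, ‖g^[k + 1] v - g^[k] v‖ ≤ ρ * (1 / 2) ^ k := by
    intro k
    induction k with
    | zero =>
      rw [pow_zero, mul_one, zero_add, Function.iterate_one, Function.iterate_zero_apply]
      exact hgv
    | succ k ih =>
      have h1 := hlip _ _ (hs1 k) (hs1 (k + 1))
      rw [← Function.iterate_succ_apply' g, ← Function.iterate_succ_apply' g] at h1
      refine h1.trans ?_
      rw [pow_succ]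
      linarith
  have hcau : CauchySeq (fun k => g^[k] v) :=
    cauchySeq_of_le_geometric (1 / 2) ρ (by norm_num) fun k => by
      rw [dist_eq_norm, norm_sub_rev]
      exact hs2 k
  obtain ⟨p, hp⟩ := cauchySeq_tendsto_of_complete hcau
  have hpv : ‖p - v‖ ≤ 3 / 2 * ρ := le_of_tendsto (hp.sub_const v).norm
    (Eventually.of_forall fun k => hs1 k)
  have hgp : g p = p := by
    have h1 : Tendsto (fun k => g^[k + 1] v) atTop (𝓝 (g p)) := by
      simp_rw [Function.iterate_succ_apply']
      exact (hdiff p).continuousAt.tendsto.comp hp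
    exact tendsto_nhds_unique h1 (hp.comp (tendsto_add_atTop_nat 1))
  refine Or.inr ⟨m, by omega, p, ?_, ?_, ?_⟩
  · rw [← hg]
    exact hgp
  · rw [← hg]
    have := hder p hpv
    linarith
  · refine hp.congr fun k => ?_
    rw [Function.iterate_mul, ← hg]

end Pool.Agent.Zk50.Po
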