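import Pool.Agent.Zk29.Po.D

/-!
# The free critical points of nearby polynomials
-/

set_option autoImplicit false

open Set Filter Topology Metric Polynomial

namespace Pool.Agent.Zk50.Po

open Pool.Agent.H713R5.QJ (ev Good opg_holds opg_growth opg_escape)
open Pool.Agent.Zk29.Po (Fp Sim pl)

variable {d : ℕ}

theorem pl_coeff (a : Fin (d + 1) → ℂ) (j : ℕ) :
    (pl a).coeff j = if h : j < d + 1 then a ⟨j, h⟩ else 0 := by
  unfold pl
  rw [finsetSum_coeff]
  simp only [coeff_C_mul, coeff_X_pow]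
  split_ifs with h
  · rw [Finset.sum_eq_single (⟨j, h⟩ : Fin (d + 1))]
    · simp
    · intro i _ hi
      have : j ≠ (i : ℕ) := fun h' => hi (Fin.ext h'.symm)
      simp [this]
    · simp
  · refine Finset.sum_eq_zero fun i _ => ?_
    have : j ≠ (i : ℕ) := by have := i.2; omega
    simp [this]

theorem pl_coeff_le (a : Fin (d + 1) → ℂ) (j : ℕ) : ‖(pl a).coeff j‖ ≤ ‖a‖ := by
  rw [pl_coeff]
  split_ifs with h
  · exact norm_le_pi_norm a _
  · simp

theorem pl_zero : pl (0 : Fin (d + 1) → ℂ) = 0 := by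
  unfold pl
  simp

theorem natDegree_pl (a : Fin (d + 1) → ℂ) : (pl a).natDegree ≤ d := by
  rw [natDegree_le_iff_coeff_eq_zero]
  intro N hN
  rw [pl_coeff, dif_neg (by omega)]

theorem natDegree_add_pl {T : ℂ[X]} (hT : T.natDegree = d) {a : Fin (d + 1) → ℂ}
    (ha : T.coeff d + (pl a).coeff d ≠ 0) : (T + pl a).natDegree = d := by
  refine le_antisymm ((natDegree_add_le _ _).trans (max_le hT.le (natDegree_pl a))) ?_
  refine le_natDegree_of_ne_zero ?_
  rwa [coeff_add]

/-- the derivative of `pl a` -/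
theorem eval_d1 (a : Fin (d + 1) → ℂ) (z : ℂ) :
    (derivative (pl a)).eval z = ∑ i : Fin (d + 1), a i * ((i : ℕ) : ℂ) * z ^ ((i : ℕ) - 1) := by
  unfold pl
  rw [derivative_sum, eval_finsetSum]
  refine Finset.sum_congr rfl fun i _ => ?_
  rw [derivative_C_mul_X_pow]
  simp

theorem eval_d2 (a : Fin (d + 1) → ℂ) (z : ℂ) :
    (derivative (derivative (pl a))).eval z =
      ∑ i : Fin (d + 1), a i * ((i : ℕ) : ℂ) * (((i : ℕ) - 1 : ℕ) : ℂ) *
        z ^ ((i : ℕ) - 1 - 1) := by
  unfold pl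
  rw [derivative_sum, derivative_sum, eval_finsetSum]
  refine Finset.sum_congr rfl fun i _ => ?_
  rw [derivative_C_mul_X_pow, derivative_C_mul_X_pow]
  simp

theorem cont_d1 (T : ℂ[X]) : Continuous fun p : (Fin (d + 1) → ℂ) × ℂ =>
    (derivative (T + pl p.1)).eval p.2 := by
  simp only [derivative_add, eval_add, eval_d1]
  refine ((derivative T).continuous.comp continuous_snd).add
    (continuous_finsetSum _ fun i _ => ?_)
  exact ((((continuous_apply i).comp continuous_fst).mul continuous_const)).mul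
    (continuous_snd.pow _)

theorem cont_d2 (T : ℂ[X]) : Continuous fun p : (Fin (d + 1) → ℂ) × ℂ =>
    (derivative (derivative (T + pl p.1))).eval p.2 := by
  simp only [derivative_add, eval_add, eval_d2]
  refine ((derivative (derivative T)).continuous.comp continuous_snd).add
    (continuous_finsetSum _ fun i _ => ?_)
  exact (((((continuous_apply i).comp continuous_fst).mul continuous_const)).mul
    continuous_const).mul (continuous_snd.pow _)

theorem deg_ev {T : ℂ[X]} (hd : 2 ≤ d) (hT : T.natDegree = d) :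
    ∀ᶠ a : Fin (d + 1) → ℂ in 𝓝 0, (T + pl a).natDegree = d ∧
      ‖T.coeff d‖ / 2 ≤ ‖(T + pl a).coeff d‖ := by
  have hT0 : T.coeff d ≠ 0 := by
    rw [← hT]
    exact leadingCoeff_ne_zero.2 (by rintro rfl; simp at hT; omega)
  have hpos : 0 < ‖T.coeff d‖ := norm_pos_iff.2 hT0
  have h1 : ∀ᶠ a : Fin (d + 1) → ℂ in 𝓝 0, ‖a‖ < ‖T.coeff d‖ / 2 := by
    have h2 : ‖(0 : Fin (d + 1) → ℂ)‖ < ‖T.coeff d‖ / 2 := by rw [norm_zero]; linarith
    exact (continuous_norm.tendsto (0 : Fin (d + 1) → ℂ)).eventually (Iio_mem_nhds h2)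
  filter_upwards [h1] with a ha
  have h2 := (pl_coeff_le a d).trans ha.le
  have h3 : ‖T.coeff d‖ / 2 ≤ ‖T.coeff d + (pl a).coeff d‖ := by
    have := norm_sub_le (T.coeff d + (pl a).coeff d) ((pl a).coeff d)
    rw [add_sub_cancel_right] at this
    linarith
  refine ⟨natDegree_add_pl hT fun h0 => ?_, by rwa [coeff_add]⟩
  rw [h0, norm_zero] at h3
  linarith

/-- far points are good, for all nearby polynomials -/
theorem far_good {T : ℂ[X]} (hd : 2 ≤ d) (hT : T.natDegree = d) : ∃ R : ℝ,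
    ∀ᶠ a : Fin (d + 1) → ℂ in 𝓝 0, ∀ z : ℂ, R ≤ ‖z‖ → Good (ev (T + pl a)) z := by
  have hT0 : T.coeff d ≠ 0 := by
    rw [← hT]
    exact leadingCoeff_ne_zero.2 (by rintro rfl; simp at hT; omega)
  have hpos : 0 < ‖T.coeff d‖ := norm_pos_iff.2 hT0
  set c : ℝ := ‖T.coeff d‖ / 2 with hc
  have hc0 : 0 < c := by positivity
  set B : ℝ := ∑ j ∈ Finset.range d, (‖T.coeff j‖ + 1) with hB
  have hB0 : 0 ≤ B := Finset.sum_nonneg fun j _ => by positivity
  refine ⟨max 1 ((B + 2) / c), ?_⟩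
  have h1 : ∀ᶠ a : Fin (d + 1) → ℂ in 𝓝 0, ‖a‖ < 1 := by
    have h2 : ‖(0 : Fin (d + 1) → ℂ)‖ < 1 := by rw [norm_zero]; exact one_pos
    exact (continuous_norm.tendsto (0 : Fin (d + 1) → ℂ)).eventually (Iio_mem_nhds h2)
  filter_upwards [h1, deg_ev hd hT] with a ha had z hz
  obtain ⟨hdeg, hlead⟩ := had
  left
  have hR1 : (1 : ℝ) ≤ max 1 ((B + 2) / c) := le_max_left _ _
  refine opg_escape (k := 0) hR1 (fun w hw => ?_) hz
  refine opg_growth (T + pl a) (c := c) (B := B) (R := max 1 ((B + 2) / c)) (by omega)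
    (by rw [hdeg]; exact hlead) ?_ hR1 ?_ hc0 hw
  · rw [hdeg]
    refine Finset.sum_le_sum fun j _ => ?_
    rw [coeff_add]
    refine (norm_add_le _ _).trans ?_
    have := (pl_coeff_le a j).trans ha.le
    linarith
  · have h3 : (B + 2) / c ≤ max 1 ((B + 2) / c) := le_max_right _ _
    have h4 := mul_le_mul_of_nonneg_left h3 hc0.le
    rwa [mul_div_cancel₀ _ hc0.ne'] at h4

/-- good points stay good -/
theorem good_ev {T : ℂ[X]} (hd : 2 ≤ d) (hT : T.natDegree = d) {z : ℂ} (hz : Good (ev T) z) :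
    ∀ᶠ p : (Fin (d + 1) → ℂ) × ℂ in 𝓝 (0, z), Good (ev (T + pl p.1)) p.2 := by
  obtain ⟨σ, hσ, h⟩ := opg_holds T z (by omega) hz
  have h1 : ∀ᶠ p : (Fin (d + 1) → ℂ) × ℂ in 𝓝 (0, z), ‖p.1‖ < σ := by
    have h2 : ‖((0 : Fin (d + 1) → ℂ), z).1‖ < σ := by simpa using hσ
    exact ((continuous_norm.comp continuous_fst).tendsto
      ((0 : Fin (d + 1) → ℂ), z)).eventually (Iio_mem_nhds h2)
  have h2 : ∀ᶠ p : (Fin (d + 1) → ℂ) × ℂ in 𝓝 (0, z), p.2 ∈ ball z σ :=
    continuous_snd.continuousAt.eventually_mem (isOpen_ball.mem_nhds (mem_ball_self hσ))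
  have h3 : ∀ᶠ p : (Fin (d + 1) → ℂ) × ℂ in 𝓝 (0, z), (T + pl p.1).natDegree = d ∧
      ‖T.coeff d‖ / 2 ≤ ‖(T + pl p.1).coeff d‖ :=
    (continuous_fst.tendsto ((0 : Fin (d + 1) → ℂ), z)).eventually (deg_ev hd hT)
  filter_upwards [h1, h2, h3] with p hp1 hp2 hp3
  refine h _ (by rw [hp3.1, hT]) (fun j => ?_) _ hp2
  rw [coeff_add, add_sub_cancel_left]
  exact (pl_coeff_le _ _).trans_lt hp1

theorem Fp_fin {T : ℂ[X]} (hT : 1 ≤ T.natDegree) : (Fp T).Finite := by
  have h0 : derivative T ≠ 0 := by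
    intro h
    have := derivative_eq_zero.1 h
    omega
  refine ((derivative T).roots.toFinset.finite_toSet).subset fun z hz => ?_
  simp only [Finset.mem_coe, Multiset.mem_toFinset]
  exact (mem_roots h0).2 hz.1

theorem near : Pool.Agent.Zk29.Po.S_NEAR := by
  classical
  intro d T hd hT hsim ε hε
  have hFf : (Fp T).Finite := Fp_fin (by omega)
  -- the second derivative near the free critical points
  have hloc : ∀ c ∈ Fp T, ∃ ρ : ℝ, 0 < ρ ∧ ∀ b : Fin (d + 1) → ℂ, ‖b‖ < ρ → ∀ z ∈ ball c ρ,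
      ‖(derivative (derivative (T + pl b))).eval z - (derivative (derivative T)).eval c‖ <
        ‖(derivative (derivative T)).eval c‖ / 2 := by
    intro c hc
    have hL : 0 < ‖(derivative (derivative T)).eval c‖ := norm_pos_iff.2 (hsim c hc)
    have h1 : Continuous (fun p : (Fin (d + 1) → ℂ) × ℂ =>
        ‖(derivative (derivative (T + pl p.1))).eval p.2 -
          (derivative (derivative T)).eval c‖) := ((cont_d2 T).sub continuous_const).norm
    have h2 : ∀ᶠ p : (Fin (d + 1) → ℂ) × ℂ in 𝓝 (0, c),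
        ‖(derivative (derivative (T + pl p.1))).eval p.2 -
          (derivative (derivative T)).eval c‖ < ‖(derivative (derivative T)).eval c‖ / 2 := by
      apply h1.continuousAt.eventually_lt_const
      simp only [pl_zero, add_zero, sub_self, norm_zero]
      linarith
    obtain ⟨ρ, hρ, h3⟩ := Metric.eventually_nhds_iff.1 h2
    refine ⟨ρ, hρ, fun b hb z hz => h3 (y := (b, z)) ?_⟩
    rw [Prod.dist_eq, max_lt_iff]
    exact ⟨by rwa [dist_zero_right], hz⟩
  choose! ρ hρ hloc' using hloc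
  have huniq : ∀ c ∈ Fp T, ∀ b : Fin (d + 1) → ℂ, ‖b‖ < ρ c → ∀ z ∈ ball c (ρ c),
      ∀ z' ∈ ball c (ρ c), (derivative (T + pl b)).eval z = 0 →
      (derivative (T + pl b)).eval z' = 0 → z = z' := by
    intro c hc b hb z hz z' hz' h1 h2
    obtain ⟨L, hLe⟩ : ∃ L, L = (derivative (derivative T)).eval c := ⟨_, rfl⟩
    have hL : 0 < ‖L‖ := by rw [hLe]; exact norm_pos_iff.2 (hsim c hc)
    obtain ⟨Gp, hG⟩ : ∃ Gp, Gp = derivative (T + pl b) := ⟨_, rfl⟩
    rw [← hG] at h1 h2
    have h3 := (convex_ball c (ρ c)).norm_image_sub_le_of_norm_hasDerivWithin_le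
      (f := fun w => Gp.eval w - L * w) (f' := fun w => (derivative Gp).eval w - L)
      (C := ‖L‖ / 2) (fun w hw => by
        have h4 := (Gp.hasDerivAt w).sub ((hasDerivAt_id w).const_mul L)
        rw [mul_one] at h4
        exact h4.hasDerivWithinAt) (fun w hw => by
        have h4 := hloc' c hc b hb w hw
        rw [← hG, ← hLe] at h4
        exact h4.le) hz hz'
    have h5 : Gp.eval z' - L * z' - (Gp.eval z - L * z) = - (L * (z' - z)) := by
      rw [h1, h2]
      ring
    change ‖Gp.eval z' - L * z' - (Gp.eval z - L * z)‖ ≤ _ at h3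
    rw [h5, norm_neg, norm_mul] at h3
    by_contra hne
    have h6 : 0 < ‖z' - z‖ := norm_pos_iff.2 (sub_ne_zero.2 (Ne.symm hne))
    have h7 : 0 < ‖L‖ * ‖z' - z‖ := mul_pos hL h6
    have h8 : ‖L‖ / 2 * ‖z' - z‖ = ‖L‖ * ‖z' - z‖ / 2 := by ring
    rw [h8] at h3
    linarith
  obtain ⟨R, hR⟩ := far_good hd hT
  -- the free critical points in the closed ball
  have e1 : ∀ᶠ b : Fin (d + 1) → ℂ in 𝓝 0, ∀ z ∈ closedBall (0 : ℂ) R, z ∈ Fp (T + pl b) →
      ∃ c ∈ Fp T, z ∈ ball c (min (ρ c) ε) := by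
    refine (isCompact_closedBall (0 : ℂ) R).eventually_forall_of_forall_eventually fun z _ => ?_
    by_cases hg : Good (ev T) z
    · filter_upwards [good_ev hd hT hg] with p hp h2 using absurd hp h2.2
    by_cases h0 : (derivative T).eval z = 0
    · have hzc : z ∈ Fp T := ⟨h0, hg⟩
      have h1 : ∀ᶠ p : (Fin (d + 1) → ℂ) × ℂ in 𝓝 (0, z), p.2 ∈ ball z (min (ρ z) ε) :=
        continuous_snd.continuousAt.eventually_mem
          (isOpen_ball.mem_nhds (mem_ball_self (lt_min (hρ z hzc) hε)))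
      filter_upwards [h1] with p hp _ using ⟨z, hzc, hp⟩
    · have h1 : ∀ᶠ p : (Fin (d + 1) → ℂ) × ℂ in 𝓝 (0, z),
          (derivative (T + pl p.1)).eval p.2 ≠ 0 := by
        apply (cont_d1 T).continuousAt.eventually_ne
        simp only [pl_zero, add_zero]
        exact h0
      filter_upwards [h1] with p hp h2 using absurd h2.1 hp
  have e2 : ∀ᶠ b : Fin (d + 1) → ℂ in 𝓝 0, ∀ c ∈ Fp T, ‖b‖ < ρ c := by
    rw [eventually_all_finite hFf]
    intro c hc
    have h2 : ‖(0 : Fin (d + 1) → ℂ)‖ < ρ c := by rw [norm_zero]; exact hρ c hc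
    exact (continuous_norm.tendsto (0 : Fin (d + 1) → ℂ)).eventually (Iio_mem_nhds h2)
  filter_upwards [e1, e2, hR, deg_ev hd hT] with b h1 h2 h3 h4
  have hnear : ∀ z ∈ Fp (T + pl b), ∃ c ∈ Fp T, z ∈ ball c (min (ρ c) ε) := by
    intro z hz
    refine h1 z ?_ hz
    rw [mem_closedBall, dist_zero_right]
    by_contra hcon
    exact hz.2 (h3 z (not_le.1 hcon).le)
  have hsub : ∀ c, ball c (min (ρ c) ε) ⊆ ball c (ρ c) := fun c =>
    ball_subset_ball (min_le_left _ _)
  refine ⟨h4.1, fun z hz => ?_, ?_⟩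
  · obtain ⟨c, hc, hzc⟩ := hnear z hz
    have h5 := hloc' c hc b (h2 c hc) z (hsub c hzc)
    intro h6
    rw [h6, zero_sub, norm_neg] at h5
    have h7 := norm_nonneg ((derivative (derivative T)).eval c)
    linarith
  · choose! g hg1 hg2 using hnear
    refine ⟨g, fun z hz => ⟨hg1 z hz, ?_⟩, ?_⟩
    · have h5 := hg2 z hz
      rw [mem_ball, dist_eq_norm] at h5
      exact h5.trans_le (min_le_right _ _)
    · intro z hz z' hz' hzz
      have h5 := hg2 z hz
      have h6 := hg2 z' hz'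
      rw [← hzz] at h6
      exact huniq (g z) (hg1 z hz) b (h2 _ (hg1 z hz)) z (hsub _ h5) z' (hsub _ h6) hz.1 hz'.1

theorem nice : Pool.Agent.Zk29.Po.S_NICE := by
  classical
  intro d T hd hT ε hε
  have hd2 : derivative (derivative T) ≠ 0 := by
    intro h
    have h1 := derivative_eq_zero.1 h
    have h2 : (derivative T).natDegree = d - 1 := by
      rw [natDegree_derivative, hT]
    omega
  -- a value of `c` which is not minus a critical value of the derivative
  obtain ⟨c, hc1, hc2⟩ : ∃ c ∈ ball (0 : ℂ) ε,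
      c ∉ (fun z => -(derivative T).eval z) '' {z | (derivative (derivative T)).eval z = 0} := by
    have hfin : {z | (derivative (derivative T)).eval z = 0}.Finite := by
      refine ((derivative (derivative T)).roots.toFinset.finite_toSet).subset fun z hz => ?_
      simp only [Finset.mem_coe, Multiset.mem_toFinset]
      exact (mem_roots hd2).2 hz
    have hinf : (ball (0 : ℂ) ε).Infinite :=
      infinite_of_mem_nhds 0 (isOpen_ball.mem_nhds (mem_ball_self hε))
    obtain ⟨c, hc⟩ := (hinf.sdiff (hfin.image _)).nonempty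
    exact ⟨c, hc.1, hc.2⟩
  have h1d : 1 < d + 1 := by omega
  set a : Fin (d + 1) → ℂ := Pi.single ⟨1, h1d⟩ c with ha
  have hpl : pl a = C c * X := by
    unfold pl
    rw [Finset.sum_eq_single (⟨1, h1d⟩ : Fin (d + 1))]
    · rw [ha, Pi.single_eq_same]
      simp
    · intro i _ hi
      rw [ha, Pi.single_eq_of_ne hi]
      simp
    · simp
  have hder : derivative (T + pl a) = derivative T + C c := by
    rw [hpl, derivative_add, derivative_C_mul, derivative_X, mul_one]
  refine ⟨a, ?_, ?_, ?_⟩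
  · rw [pi_norm_lt_iff hε]
    intro i
    by_cases hi : i = ⟨1, h1d⟩
    · rw [hi, ha, Pi.single_eq_same]
      rwa [mem_ball, dist_zero_right] at hc1
    · rw [ha, Pi.single_eq_of_ne hi, norm_zero]
      exact hε
  · refine natDegree_add_pl hT ?_
    have h1 : (pl a).coeff d = 0 := by
      rw [hpl, coeff_C_mul, coeff_X, if_neg (by omega), mul_zero]
    rw [h1, add_zero, ← hT]
    exact leadingCoeff_ne_zero.2 (by rintro rfl; simp at hT; omega)
  · intro z hz h2
    apply hc2
    have h3 := hz.1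
    rw [hder, eval_add, eval_C] at h3
    rw [hder, derivative_add, derivative_C, add_zero] at h2
    exact ⟨z, h2, by simp only; linear_combination (-1 : ℂ) * h3⟩

end Pool.Agent.Zk50.Po
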